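import Pool.Agent.Helper77.SUBK.SheetK

/-!
Row KTR of the project SUBK: from a relation over `ℚ` for all multiples to a relation over `M`.
-/

set_option autoImplicit false

namespace Pool.Agent.Helper99.SUBK

open Finset Pool.Agent.Helper70.SUB Pool.Agent.Helper77.SUBK

theorem KTR : ST_KTR := by
  intro M _ _ n d ω u hu
  have hB := traceForm_nondegenerate ℚ M
  set f : Fin n → Module.Dual ℚ M := fun k => ∑ l, u k l • ω.coord l with hf
  have hfa : ∀ k y, f k y = ∑ l, u k l * ω.repr y l := by
    intro k y
    rw [hf]
    simp only [LinearMap.sum_apply, LinearMap.smul_apply, smul_eq_mul, Module.Basis.coord_apply]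
  set a : Fin n → M := fun k => ((Algebra.traceForm ℚ M).toDual hB).symm (f k) with ha
  have hta : ∀ k y, Algebra.trace ℚ M (a k * y) = f k y := by
    intro k y
    have h1 := LinearMap.BilinForm.apply_toDual_symm_apply (hB := hB) (f k) y
    rwa [Algebra.traceForm_apply] at h1
  refine ⟨a, ?_, ?_⟩
  · intro h0
    apply hu
    funext k l
    have h1 := hta k (ω l)
    rw [h0, Pi.zero_apply, zero_mul, map_zero, hfa, sum_eq_single l] at h1
    · rw [Module.Basis.repr_self, Finsupp.single_eq_same, mul_one] at h1
      exact h1.symm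
    · intro b _ hb
      rw [Module.Basis.repr_self, Finsupp.single_eq_of_ne hb, mul_zero]
    · intro h; exact absurd (mem_univ l) h
  · intro x hx
    have h1 : ∀ m : Fin d, Algebra.traceForm ℚ M (∑ k, a k * x k) (ω m) = 0 := by
      intro m
      rw [Algebra.traceForm_apply, sum_mul, map_sum, ← hx m]
      refine sum_congr rfl fun k _ => ?_
      rw [← hfa, ← hta]
      congr 1
      ring
    have h2 : Algebra.traceForm ℚ M (∑ k, a k * x k) = 0 := by
      apply ω.ext
      intro m
      rw [h1 m, LinearMap.zero_apply]
    have h3 : ((Algebra.traceForm ℚ M).toDual hB) (∑ k, a k * x k) = 0 := h2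
    exact (LinearEquiv.map_eq_zero_iff _).1 h3

end Pool.Agent.Helper99.SUBK
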