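import Pool.Agent.Helper77.SUBK.SheetK
import Pool.Agent.Helper99.SUB.LAU1

/-!
Row LAU1M of the project SUBK: proportional logarithmic derivatives over a field of
characteristic zero.
-/

set_option autoImplicit false

namespace Pool.Agent.Helper99.SUBK

open Finset Pool.Agent.Helper70.SUB Pool.Agent.Helper77.SUBK
open Pool.Agent.Helper99.SUB (pair pair_add pair_sub exists_sep exists_top uniq_top)

variable {M : Type} [Field M] [CharZero M]

/-- comparison of the top coefficients -/
theorem top_eq {r : ℕ} (hL : ST_LAUBM) {δ : Fin r → ℤ} {F G : LauM M r} {E : Finset (Fin r → ℤ)}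
    (hE : ∀ m ∈ E, ∀ m' ∈ E, pair δ m = pair δ m' → m = m') (hF : F.coeff.support ⊆ E)
    (hG : G.coeff.support ⊆ E) {a b : Fin r → ℤ} (ha : a ∈ F.coeff.support)
    (hb : b ∈ G.coeff.support) (ha' : ∀ x ∈ F.coeff.support, pair δ x ≤ pair δ a)
    (hb' : ∀ x ∈ G.coeff.support, pair δ x ≤ pair δ b)
    (h : F * drM δ G = G * drM δ F) : a = b := by
  have hc : ∀ (K : LauM M r) (m : Fin r → ℤ), (drM δ K).coeff m = ((pair δ m : ℤ) : M) * K.coeff m :=
    fun K m => ((hL M r).2 δ).2.2.2 K m
  have hsub : ∀ K : LauM M r, (drM δ K).coeff.support ⊆ K.coeff.support := by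
    intro K m hm
    rw [Finsupp.mem_support_iff] at hm ⊢
    intro h0
    apply hm
    rw [hc, h0, mul_zero]
  have hA : ∀ x ∈ F.coeff.support, pair δ x = pair δ a → x = a :=
    fun x hx hxa => hE x (hF hx) a (hF ha) hxa
  have hB : ∀ x ∈ G.coeff.support, pair δ x = pair δ b → x = b :=
    fun x hx hxb => hE x (hG hx) b (hG hb) hxb
  have h1 : (F * drM δ G).coeff (a + b) = F.coeff a * (drM δ G).coeff b :=
    AddMonoidAlgebra.coeff_mul_add_of_uniqueAdd
      (uniq_top ha' (fun x hx => hb' x (hsub G hx)) hA (fun x hx => hB x (hsub G hx)))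
  have h2 : (G * drM δ F).coeff (b + a) = G.coeff b * (drM δ F).coeff a :=
    AddMonoidAlgebra.coeff_mul_add_of_uniqueAdd
      (uniq_top hb' (fun x hx => ha' x (hsub F hx)) hB (fun x hx => hA x (hsub F hx)))
  rw [h, add_comm a b, h2, hc, hc] at h1
  have hfa : F.coeff a ≠ 0 := Finsupp.mem_support_iff.1 ha
  have hgb : G.coeff b ≠ 0 := Finsupp.mem_support_iff.1 hb
  have h3 : ((pair δ a : ℤ) : M) = ((pair δ b : ℤ) : M) := by
    have h4 : (G.coeff b * F.coeff a) * ((pair δ a : ℤ) : M) =
        (G.coeff b * F.coeff a) * ((pair δ b : ℤ) : M) := by linear_combination h1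
    exact mul_left_cancel₀ (mul_ne_zero hgb hfa) h4
  exact hE a (hF ha) b (hG hb) (by exact_mod_cast h3)

theorem LAU1M (hL : ST_LAUBM) : ST_LAU1M := by
  classical
  intro M _ _ r F G hG h
  by_cases hF : F = 0
  · exact ⟨0, by rw [hF, zero_smul]⟩
  obtain ⟨δ, hδ⟩ := exists_sep (F.coeff.support ∪ G.coeff.support)
  have hFs : F.coeff.support.Nonempty := by
    rw [Finsupp.support_nonempty_iff, ne_eq, AddMonoidAlgebra.coeff_eq_zero]
    exact hF
  have hGs : G.coeff.support.Nonempty := by
    rw [Finsupp.support_nonempty_iff, ne_eq, AddMonoidAlgebra.coeff_eq_zero]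
    exact hG
  obtain ⟨a, ha, ha'⟩ := exists_top δ _ hFs
  obtain ⟨b, hb, hb'⟩ := exists_top δ _ hGs
  have hab : a = b := top_eq hL hδ subset_union_left subset_union_right ha hb ha' hb' (h δ)
  subst hab
  have hga : G.coeff a ≠ 0 := Finsupp.mem_support_iff.1 hb
  refine ⟨F.coeff a / G.coeff a, ?_⟩
  set c : M := F.coeff a / G.coeff a with hc
  by_contra hne
  set K : LauM M r := F - c • G with hK
  have hK0 : K ≠ 0 := by
    rw [hK]
    exact sub_ne_zero.2 hne
  have hco : ∀ (K : LauM M r) (m : Fin r → ℤ),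
      (drM δ K).coeff m = ((pair δ m : ℤ) : M) * K.coeff m :=
    fun K m => ((hL M r).2 δ).2.2.2 K m
  have hKc : ∀ m, K.coeff m = F.coeff m - c * G.coeff m := by
    intro m
    rw [hK, AddMonoidAlgebra.coeff_sub, AddMonoidAlgebra.coeff_smul, Finsupp.sub_apply,
      Finsupp.smul_apply, smul_eq_mul]
  have hdK : drM δ K = drM δ F - c • drM δ G := by
    apply AddMonoidAlgebra.coeff_injective
    ext m
    rw [hco, hKc]
    have h9 : (drM δ F - c • drM δ G).coeff m = (drM δ F).coeff m - c * (drM δ G).coeff m := by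
      rw [AddMonoidAlgebra.coeff_sub, AddMonoidAlgebra.coeff_smul, Finsupp.sub_apply,
        Finsupp.smul_apply, smul_eq_mul]
    rw [h9, hco, hco]
    ring
  have hrel : K * drM δ G = G * drM δ K := by
    rw [hdK, hK, sub_mul, mul_sub, h δ, smul_mul_assoc, mul_smul_comm]
  have hKs : K.coeff.support ⊆ F.coeff.support ∪ G.coeff.support := by
    intro m hm
    rw [Finsupp.mem_support_iff, hKc] at hm
    rw [mem_union, Finsupp.mem_support_iff, Finsupp.mem_support_iff]
    by_contra h1
    push Not at h1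
    rw [h1.1, h1.2] at hm
    simp at hm
  have hKn : K.coeff.support.Nonempty := by
    rw [Finsupp.support_nonempty_iff, ne_eq, AddMonoidAlgebra.coeff_eq_zero]
    exact hK0
  obtain ⟨e, he, he'⟩ := exists_top δ _ hKn
  have hea : e = a := top_eq hL hδ hKs subset_union_right he hb he' hb' hrel
  subst hea
  have h5 := Finsupp.mem_support_iff.1 he
  apply h5
  rw [hKc, hc]
  field_simp
  ring

end Pool.Agent.Helper99.SUBK
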